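import Pool.Agent.K1H92.ZO.Defs

set_option autoImplicit false

open MeasureTheory Set Filter

namespace Pool.Agent.K1H24.ZO

open Pool.Agent.K1H92.ZO

/-- abstract form -/
theorem core {A B : Type} [MeasureSpace A] [MeasureSpace B] [SigmaFinite (volume : Measure A)]
    [SigmaFinite (volume : Measure B)] (hA : (volume : Measure A) ≠ 0)
    (S : Set ((A × B) × (A × B))) (hS : MeasurableSet S)
    (hsym : ∀ p q, (p, q) ∈ S ↔ (q, p) ∈ S)
    (hsec : ∀ᵐ z : B × (A × B), volume {x : A | ((x, z.1), z.2) ∈ S} = 0 ∨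
      volume {x : A | ((x, z.1), z.2) ∉ S} = 0) :
    ∃ D : Set (B × B), MeasurableSet D ∧
      ∀ᵐ z : (A × B) × (A × B), (z ∈ S ↔ (z.1.2, z.2.2) ∈ D) := by
  -- the conull sections
  set D1 : Set (B × (A × B)) := {z | volume {x : A | ((x, z.1), z.2) ∉ S} = 0} with hD1
  have hmap : Measurable fun w : (B × (A × B)) × A => (((w.2, w.1.1), w.1.2) : (A × B) × (A × B)) :=
    ((measurable_snd.prodMk (measurable_fst.comp measurable_fst)).prodMk
      (measurable_snd.comp measurable_fst))
  have hD1m : MeasurableSet D1 := by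
    have h1 : MeasurableSet {w : (B × (A × B)) × A | ((w.2, w.1.1), w.1.2) ∉ S} :=
      (hmap hS).compl
    have h2 := measurable_measure_prodMk_left (ν := (volume : Measure A)) h1
    exact h2 (measurableSet_singleton 0)
  have hP : MeasurableSet {w : (B × (A × B)) × A | ((w.2, w.1.1), w.1.2) ∈ S ↔ w.1 ∈ D1} := by
    have h1 : MeasurableSet {w : (B × (A × B)) × A | ((w.2, w.1.1), w.1.2) ∈ S} := hmap hS
    have h2 : MeasurableSet {w : (B × (A × B)) × A | w.1 ∈ D1} := measurable_fst hD1m
    have h3 : {w : (B × (A × B)) × A | ((w.2, w.1.1), w.1.2) ∈ S ↔ w.1 ∈ D1} =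
        ({w | ((w.2, w.1.1), w.1.2) ∈ S} ∩ {w | w.1 ∈ D1}) ∪
        ({w | ((w.2, w.1.1), w.1.2) ∈ S}ᶜ ∩ {w | w.1 ∈ D1}ᶜ) := by
      ext w
      simp only [mem_setOf_eq, mem_union, mem_inter_iff, mem_compl_iff]
      tauto
    rw [h3]
    exact (h1.inter h2).union (h1.compl.inter h2.compl)
  have h1 : ∀ᵐ w : (B × (A × B)) × A, (((w.2, w.1.1), w.1.2) ∈ S ↔ w.1 ∈ D1) := by
    rw [Measure.volume_eq_prod]
    rw [Measure.ae_prod_iff_ae_ae hP]
    filter_upwards [hsec] with u hu
    rcases hu with hu | hu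
    · have hn : u ∉ D1 := by
        intro hc
        have hc' : volume {x : A | ((x, u.1), u.2) ∉ S} = 0 := hc
        apply hA
        rw [← Measure.measure_univ_eq_zero]
        refine measure_mono_null (fun x _ => ?_) (measure_union_null hu hc')
        by_cases hx : ((x, u.1), u.2) ∈ S
        · exact Or.inl hx
        · exact Or.inr hx
      have h4 : ∀ᵐ x : A, ¬ (((x, u.1), u.2) ∈ S) := by
        rw [ae_iff]
        simpa only [not_not] using hu
      filter_upwards [h4] with x hx
      exact iff_of_false hx hn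
    · have h4 : ∀ᵐ x : A, ((x, u.1), u.2) ∈ S := by
        rw [ae_iff]
        exact hu
      filter_upwards [h4] with x hx
      exact iff_of_true hx hu
  -- transport
  have hτ : MeasurePreserving (fun z : (A × B) × (A × B) => (((z.1.2, z.2), z.1.1) :
      (B × (A × B)) × A)) volume volume := by
    have h2 := (volume_preserving_prodAssoc (α₁ := A) (β₁ := B) (γ₁ := A × B))
    have h3 : MeasurePreserving (Prod.swap : A × (B × (A × B)) → (B × (A × B)) × A)
        (volume.prod volume) (volume.prod volume) := Measure.measurePreserving_swap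
    exact h3.comp h2
  have hA1 : ∀ᵐ z : (A × B) × (A × B), (z ∈ S ↔ (z.1.2, z.2) ∈ D1) :=
    hτ.quasiMeasurePreserving.ae h1
  have hsw : MeasurePreserving (Prod.swap : (A × B) × (A × B) → (A × B) × (A × B)) volume volume :=
    Measure.measurePreserving_swap
  have hA2 : ∀ᵐ z : (A × B) × (A × B), (z ∈ S ↔ (z.2.2, z.1) ∈ D1) := by
    filter_upwards [hsw.quasiMeasurePreserving.ae hA1] with z hz
    exact (hsym z.1 z.2).trans hz
  have hA3 : ∀ᵐ z : (A × B) × (A × B), ((z.1.2, z.2) ∈ D1 ↔ (z.2.2, z.1) ∈ D1) := by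
    filter_upwards [hA1, hA2] with z h2 h3
    exact h2.symm.trans h3
  have hα : MeasurePreserving (MeasurableEquiv.prodAssoc :
      (A × B) × (A × B) ≃ᵐ A × (B × (A × B))) volume volume := volume_preserving_prodAssoc
  have hA4 : ∀ᵐ t : A × (B × (A × B)), (t.2 ∈ D1 ↔ (t.2.2.2, (t.1, t.2.1)) ∈ D1) := by
    have h5 := (hα.symm _).quasiMeasurePreserving.ae hA3
    filter_upwards [h5] with t ht
    exact ht
  have hA5 : ∀ᵐ x : A, ∀ᵐ u : B × (A × B), (u ∈ D1 ↔ (u.2.2, (x, u.1)) ∈ D1) := by
    rw [Measure.volume_eq_prod] at hA4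
    exact Measure.ae_ae_of_ae_prod hA4
  haveI : NeBot (ae (volume : Measure A)) := ae_neBot.2 hA
  obtain ⟨x0, hx0⟩ := hA5.exists
  refine ⟨{v : B × B | (v.2, (x0, v.1)) ∈ D1}, ?_, ?_⟩
  · have h6 : Measurable fun v : B × B => ((v.2, (x0, v.1)) : B × (A × B)) :=
      measurable_snd.prodMk (measurable_const.prodMk measurable_fst)
    exact h6 hD1m
  · have h7 : Measure.QuasiMeasurePreserving (fun z : (A × B) × (A × B) => ((z.1.2, z.2) :
        B × (A × B))) volume volume :=
      (Measure.quasiMeasurePreserving_fst (μ := (volume : Measure (B × (A × B))))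
        (ν := (volume : Measure A))).comp hτ.quasiMeasurePreserving
    filter_upwards [hA1, h7.ae hx0] with z h8 h9
    exact h8.trans h9

theorem core1 : StmCore1 := fun S hS hsym hsec => by
  refine core ?_ S hS hsym hsec
  intro h
  have h1 : (volume : Measure ℝ) univ = 0 := by rw [h]; rfl
  rw [Real.volume_univ] at h1
  exact ENNReal.top_ne_zero h1

end Pool.Agent.K1H24.ZO
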